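import Pool.Agent.U991.L6.Top5

/-!
# Connected graphs in the links of `K_4^3`-free 3-graphs

Turán's `(3,4)`-conjecture says that a `K_4^3`-free 3-graph `H` on `n` vertices has edge density
`x(H) = 6 |H| / n³` at most `5/9` (asymptotically). The link of a vertex `v` is the graph of the pairs
`{a, b}` with `{v, a, b} ∈ H`. For a graph `G` on `k` vertices let `t_G(H)` be the average over the
vertices `v` of the homomorphism density of `G` in the link of `v` (the number of pairs of a vertex
and a homomorphism from `G` to its link, divided by `n^(k+1)`), and let `t_G*` be its limit for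
Turán's construction with three equal parts. We prove, for every connected graph `G` with five
vertices (21 graphs up to isomorphism) and every `K_4^3`-free 3-graph `H`,

`x(H) + t_G(H) ≤ 5/9 + t_G*`,

with linear stability: the left side can be increased by `|H ∆ T| / (5·10¹¹ n³)`, where `T` is Turán's
construction for a suitable division of the vertices. For `G = K_2` (where `t_G = x`) the inequality
is Turán's conjecture.

So a 3-graph violating Turán's conjecture has, on average, fewer copies of each connected graph on
five vertices in its links than Turán's construction; and if `t_G(H) ≥ t_G*` for only one of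
these graphs `G`, then Turán's bound `x(H) ≤ 5/9` holds and `H` is close to Turán's construction if its
density is close to `5/9`.

Outline: for each of the 21 graphs a sum of squares certificate for six-vertex structures, exact on
the eight six-vertex subgraphs of Turán's construction (own interior-point solver, exact rounding),
checked by the kernel on the 964 `K_4^3`-free 3-graphs on six vertices; a proved reduction of all
six-vertex structures to them. The certificates contain a term for the six-vertex sets with 14 edges,
which controls the distance to Turán's construction by a theorem of the starting library.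
-/

set_option autoImplicit false
set_option maxRecDepth 100000
open Finset

namespace Pool.Agent.Results.MP_466853_co.ConnectedSubgraphsOfLinks

/-- The 3-graph `H` has no four vertices spanning all four triples. -/
def K43Free {n : ℕ} (H : Finset (Finset (Fin n))) : Prop :=
  ∀ S : Finset (Fin n), S.card = 4 → ∃ s ⊆ S, s.card = 3 ∧ s ∉ H

/-- Turán's construction for the division of the vertices into the parts `g = 0`, `g = 1`, `g = 2`:
the triples that meet all three parts, and the triples with two vertices in one part and one vertex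
in the following part, where part 0 follows part 2. -/
def turan {n : ℕ} (g : Fin n → Fin 3) : Finset (Finset (Fin n)) :=
  ((univ : Finset (Fin n)).powersetCard 3).filter fun t =>
    (∀ p, ∃ i ∈ t, g i = p) ∨
      ∃ p, (t.filter fun i => g i = p).card = 2 ∧ (t.filter fun i => g i = p + 1).card = 1

/-- `a` and `b` are adjacent in the link of `v`. -/
def LinkAdj {n : ℕ} (H : Finset (Finset (Fin n))) (v a b : Fin n) : Prop :=
  ({v, a, b} : Finset (Fin n)) ∈ H

/-- Three vertices in the parts `a`, `b`, `c` form an edge of Turán's construction. -/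
def Pattern (a b c : Fin 3) : Prop :=
  (a ≠ b ∧ a ≠ c ∧ b ≠ c) ∨ (a = b ∧ c = a + 1) ∨ (a = c ∧ b = a + 1) ∨ (b = c ∧ a = b + 1)

open scoped Classical in
/-- The number of pairs `(v, f)` of a vertex `v` and a homomorphism `f` from the graph `G` to the link
of `v`. -/
noncomputable def linkHoms {k n : ℕ} (G : SimpleGraph (Fin k)) (H : Finset (Finset (Fin n))) : ℕ :=
  (univ.filter fun p : Fin n × (Fin k → Fin n) =>
    ∀ i j, G.Adj i j → LinkAdj H p.1 (p.2 i) (p.2 j)).card

open scoped Classical in
/-- The number of pairs `(p, c)` of a part `p` and a division `c` of the vertices of `G` into the three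
parts such that `p` and the parts of adjacent vertices of `G` always form the pattern of an edge of
Turán's construction. -/
noncomputable def colourings {k : ℕ} (G : SimpleGraph (Fin k)) : ℕ :=
  (univ.filter fun p : Fin 3 × (Fin k → Fin 3) =>
    ∀ i j, G.Adj i j → Pattern p.1 (p.2 i) (p.2 j)).card

/-- The edge density `6 |H| / n³`. -/
noncomputable def edgeDensity {n : ℕ} (H : Finset (Finset (Fin n))) : ℝ := 6 * H.card / (n : ℝ) ^ 3

/-- The density of `G` in the links of `H`. -/
noncomputable def linkDensity {k n : ℕ} (G : SimpleGraph (Fin k)) (H : Finset (Finset (Fin n))) : ℝ :=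
  linkHoms G H / (n : ℝ) ^ (k + 1)

/-- The density of `G` in the links of Turán's construction. -/
noncomputable def turanDensity {k : ℕ} (G : SimpleGraph (Fin k)) : ℝ :=
  colourings G / (3 : ℝ) ^ (k + 1)

open Pool.Agent.U991.L6 Pool.Agent.H122R2.N6 Pool.Agent.U991.F5
open Pool.Agent.TH773.ST (Rf Rf_sy)

theorem linkHoms_eq {k n : ℕ} (G : SimpleGraph (Fin k)) (H : Finset (Finset (Fin n))) :
    linkHoms G H = homsL (tri H) G := by
  unfold linkHoms homsL
  congr 1
  ext p
  simp only [mem_filter, mem_univ, true_and]
  refine forall_congr' fun i => forall_congr' fun j => imp_congr_right fun _ => ?_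
  rw [tri_eq]
  unfold LinkAdj
  split_ifs with h
  · exact iff_of_true h rfl
  · exact iff_of_false h (by norm_num)

theorem pattern_iff : ∀ a b c : Fin 3, Pattern a b c ↔ Rf a b c = 1 := by
  unfold Pattern
  decide

theorem colourings_eq {k : ℕ} (G : SimpleGraph (Fin k)) : colourings G = homsL Rf G := by
  unfold colourings homsL
  congr 1
  ext p
  simp only [mem_filter, mem_univ, true_and, pattern_iff]

theorem turan_card3 {n : ℕ} (g : Fin n → Fin 3) : ∀ e ∈ Pool.Agent.TH773.Turan34.turan g, e.card = 3 :=
  fun _ he => (mem_powersetCard.mp (mem_filter.mp he).1).2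

theorem final {A s e L T n c c' : ℝ} (hn : 0 < n) (hs : 0 ≤ s) (hA : A = 6 * e / n ^ 3)
    (h : n ^ 3 * s + 418037760000 * (n ^ 3 * (6 * e) + L) ≤ 71680000 * ((3240 + 8 * T) * n ^ 6))
    (hc : c = L / n ^ 6) (hc' : c' = T / 729) :
    A + c + s / (5 * 10 ^ 11 * n ^ 3) ≤ 5 / 9 + c' := by
  have h3 : 0 < n ^ 3 := by positivity
  have h6 : 0 < n ^ 6 := by positivity
  have e1 : A + c + s / (418037760000 * n ^ 3) =
      (n ^ 3 * s + 418037760000 * (n ^ 3 * (6 * e) + L)) / (418037760000 * n ^ 6) := by
    rw [hA, hc]
    field_simp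
    ring
  have e2 : s / (5 * 10 ^ 11 * n ^ 3) ≤ s / (418037760000 * n ^ 3) := by
    apply div_le_div_of_nonneg_left hs (by positivity)
    nlinarith
  have e3 : (n ^ 3 * s + 418037760000 * (n ^ 3 * (6 * e) + L)) / (418037760000 * n ^ 6) ≤
      5 / 9 + T / 729 := by
    rw [div_le_iff₀ (by positivity)]
    calc _ ≤ 71680000 * ((3240 + 8 * T) * n ^ 6) := h
      _ = _ := by ring
  rw [hc']
  linarith

theorem final2 {A e L T m n c c' : ℝ} (hm : 0 < m) (hn : n = 3 * m) (hA : A = 6 * e / n ^ 3)
    (h : m ^ 6 * (405 + T) ≤ n ^ 3 * (6 * e) + L + 30 * n ^ 5)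
    (hc : c = L / n ^ 6) (hc' : c' = T / 729) : 5 / 9 + c' ≤ A + c + 10 / m := by
  subst hn
  have e1 : A + c + 10 / m = ((3 * m) ^ 3 * (6 * e) + L + 30 * (3 * m) ^ 5) / (3 * m) ^ 6 := by
    rw [hA, hc]
    field_simp
    ring
  rw [e1, hc', le_div_iff₀ (by positivity)]
  calc _ = m ^ 6 * (405 + T) := by ring
    _ ≤ _ := h

/-- Let `G` be a connected graph with five vertices. (1) For every `K_4^3`-free 3-graph
`H` on `n ≥ 1` vertices there is a division `g` of the vertices into three parts such that
`x(H) + t_G(H) + |H ∆ turan g| / (5·10¹¹ n³) ≤ 5/9 + t_G*`. (2) For every `m ≥ 1` there is a division of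
`3 m` vertices for which Turán's construction, which is `K_4^3`-free, satisfies
`x + t_G ≥ 5/9 + t_G* - 10/m`. -/
theorem result (G : SimpleGraph (Fin 5)) (hG : G.Connected) :
    (∀ n : ℕ, 0 < n → ∀ H : Finset (Finset (Fin n)), (∀ e ∈ H, e.card = 3) → K43Free H →
      ∃ g : Fin n → Fin 3, edgeDensity H + linkDensity G H +
        (symmDiff H (turan g)).card / (5 * 10 ^ 11 * (n : ℝ) ^ 3) ≤ 5 / 9 + turanDensity G) ∧
    (∀ m : ℕ, 0 < m → ∃ g : Fin (3 * m) → Fin 3, K43Free (turan g) ∧
      5 / 9 + turanDensity G ≤ edgeDensity (turan g) + linkDensity G (turan g) + 10 / m) := by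
  constructor
  · intro n hn H hH hK
    obtain ⟨g, hg⟩ := main5 hG hH hK
    refine ⟨g, ?_⟩
    rw [NL_edge_tri hH] at hg
    have hn' : (0 : ℝ) < n := by exact_mod_cast hn
    have h : ((n : ℝ)) ^ 3 * ((symmDiff H (turan g)).card : ℝ) +
        418037760000 * ((n : ℝ) ^ 3 * (6 * (H.card : ℝ)) + (linkHoms G H : ℝ)) ≤
        71680000 * ((3240 + 8 * (colourings G : ℝ)) * (n : ℝ) ^ 6) := by
      rw [linkHoms_eq, colourings_eq]
      exact_mod_cast hg
    refine final hn' (Nat.cast_nonneg _) rfl h rfl ?_
    unfold turanDensity
    norm_num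
  · intro m hm
    refine ⟨g0 m, Pool.Agent.TH773.ST.turan_free _, ?_⟩
    have h1 := NL_turan m 32
    have h2 := NL_turan m (mask5 G)
    rw [NL_edge_Rf, NL_edge_tri (turan_card3 _)] at h1
    rw [NL5 Rf_sy, NL5 (tri_sy _), ← linkHoms_eq, ← colourings_eq] at h2
    have hm' : (0 : ℝ) < m := by exact_mod_cast hm
    have h : (m : ℝ) ^ 6 * (405 + (colourings G : ℝ)) ≤
        ((3 * m : ℕ) : ℝ) ^ 3 * (6 * ((turan (g0 m)).card : ℝ)) +
          (linkHoms G (turan (g0 m)) : ℝ) + 30 * ((3 * m : ℕ) : ℝ) ^ 5 := by
      have h3 := Nat.add_le_add h1 h2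
      have h4 : m ^ 6 * (405 + colourings G) ≤ (3 * m) ^ 3 * (6 * (turan (g0 m)).card) +
          linkHoms G (turan (g0 m)) + 30 * (3 * m) ^ 5 := by
        calc _ = m ^ 6 * 405 + m ^ 6 * colourings G := by ring
          _ ≤ _ := h3
          _ = _ := by
            rw [show Pool.Agent.TH773.Turan34.turan (g0 m) = turan (g0 m) from rfl]
            ring
      exact_mod_cast h4
    refine final2 hm' (by push_cast; ring) rfl h rfl ?_
    unfold turanDensity
    norm_num

end Pool.Agent.Results.MP_466853_co.ConnectedSubgraphsOfLinks
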