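import Pool.Agent.U319.TI.Act

/-!
# Turán's (3,4)-problem for 3-graphs with a freely acting group with many involutions

Let `G` be a 3-graph on `n` vertices in which every four vertices contain an edge, and let `Γ` be a
group of automorphisms of `G` which acts freely on the vertices and contains `i` involutions. Put
`d = n - 1 - i`. Then `36 |G| ≥ 6 n (n - 1) (n - 2) - 9 n i d - 4 n d²`. Hence `G` has at least as
many edges as Turán's construction, for every `n`, if `i ≥ 0.48 n`; and if `i ≥ n / 2` then
`144 |G| ≥ n (n - 2) (11 n - 16)`, so that the density is at least `11/24 > 4/9`. This applies to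
all 3-graphs with a regular group of automorphisms in which at least half of the elements are
involutions, for example to the 3-graphs invariant under a dihedral or generalized dihedral group
acting regularly. Here most pairs of vertices need not be exchanged by any automorphism, and the
hypothesis says nothing about the triples without exchanged pairs.

Proof. For an involution `τ` the 3-graph contains `{x, τ x, z}` or `{z, τ z, x}`. The map
`(x, τ, z) ↦ (z, τ, x)` preserves the number of exchanged pairs of the triple `{x, τ x, z}`, so at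
least half of the triples with exactly one exchanged pair are edges, and the same holds for the
triples with exactly two exchanged pairs; the triples with three exchanged pairs are all edges,
since they are contained in orbits of Klein four-groups. The triples without exchanged
pair are counted by the argument of de Caen in the graph of the pairs which are not exchanged,
which is regular of degree `d`: at most `(2/3) n d²` ordered ones are not edges. The numbers of the
kinds of triples are determined by `d` (Goodman).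
-/

set_option autoImplicit false

open Finset

namespace Pool.Agent.Results.MP_466853_co.MostlyInvolutions

/-- `G` is a 3-graph in which every four vertices contain an edge. -/
def Covering {V : Type} [DecidableEq V] (G : Finset (Finset V)) : Prop :=
  (∀ e ∈ G, e.card = 3) ∧ ∀ S : Finset V, S.card = 4 → ∃ e ∈ G, e ⊆ S

/-- The number of involutions of the group `Γ`. -/
noncomputable def involutions (Γ : Type) [Group Γ] : ℕ := Nat.card {g : Γ // g ≠ 1 ∧ g * g = 1}

/-- The number of edges of Turán's construction on `n` vertices: `k(k-1)(2k-1)`, `k²(2k-1)`,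
`k²(2k+1)` for `n = 3k`, `3k+1`, `3k+2`. -/
def turan (n : ℕ) : ℕ :=
  if n % 3 = 0 then (n / 3) * (n / 3 - 1) * (2 * (n / 3) - 1)
  else if n % 3 = 1 then (n / 3) ^ 2 * (2 * (n / 3) - 1)
  else (n / 3) ^ 2 * (2 * (n / 3) + 1)

lemma invs_card (Γ : Type) [Group Γ] [Fintype Γ] :
    (Pool.Agent.U319.TI.invs Γ).card = involutions Γ := by
  classical
  unfold involutions
  rw [Nat.card_eq_fintype_card]
  exact (Fintype.card_of_subtype _ fun g => Pool.Agent.U319.TI.mem_invs).symm

/-- comparison with Turán's number -/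
lemma turan_le {n : ℕ} (hn : 3 ≤ n) {g : ℕ} {B : ℝ} (h : B ≤ 36 * g)
    (hB : 8 / 3 * (n : ℝ) ^ 3 - 12 * (n : ℝ) ^ 2 + 16 * n - 16 / 3 ≤ B) : turan n ≤ g := by
  have h1 := Pool.Agent.U319.TI.turan_real n hn
  have h2 : (turan n : ℝ) = (Pool.Agent.U319.TI.turan n : ℝ) := rfl
  have h3 : (turan n : ℝ) ≤ g := by rw [h2]; linarith
  exact_mod_cast h3

lemma turan_small {n : ℕ} (hn : n < 4) : turan n = 0 := by
  interval_cases n <;> decide

theorem result :
    -- groups acting freely
    (∀ (V Γ : Type) [Fintype V] [DecidableEq V] [Group Γ] [Fintype Γ] [MulAction Γ V]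
      (G : Finset (Finset V)), Covering G → (∀ (g : Γ) (x : V), g • x = x → g = 1) →
      (∀ (g : Γ), ∀ e ∈ G, e.image (fun x => g • x) ∈ G) →
      ∀ n i : ℕ, n = Fintype.card V → i = involutions Γ →
        (6 * ((n : ℤ) * (n - 1) * (n - 2)) ≤
          36 * G.card + 9 * (n * i * (n - 1 - i)) + 4 * n * (n - 1 - i) ^ 2) ∧
        (12 * n ≤ 25 * i → turan n ≤ G.card) ∧
        (n ≤ 2 * i → (n : ℤ) * (n - 2) * (11 * n - 16) ≤ 144 * G.card)) ∧
    -- regular groups, at least half of the elements of which are involutions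
    (∀ (Γ : Type) [Fintype Γ] [DecidableEq Γ] [Group Γ] (G : Finset (Finset Γ)), Covering G →
      (∀ (g : Γ), ∀ e ∈ G, e.image (fun x => g * x) ∈ G) →
      Fintype.card Γ ≤ 2 * involutions Γ → turan (Fintype.card Γ) ≤ G.card ∧
        (Fintype.card Γ : ℤ) * (Fintype.card Γ - 2) * (11 * Fintype.card Γ - 16) ≤
          144 * G.card) := by
  have main : ∀ (V Γ : Type) [Fintype V] [DecidableEq V] [Group Γ] [Fintype Γ] [MulAction Γ V]
      (G : Finset (Finset V)), Covering G → (∀ (g : Γ) (x : V), g • x = x → g = 1) →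
      (∀ (g : Γ), ∀ e ∈ G, e.image (fun x => g • x) ∈ G) →
      ∀ n i : ℕ, n = Fintype.card V → i = involutions Γ →
        (6 * ((n : ℤ) * (n - 1) * (n - 2)) ≤
          36 * G.card + 9 * (n * i * (n - 1 - i)) + 4 * n * (n - 1 - i) ^ 2) ∧
        (12 * n ≤ 25 * i → turan n ≤ G.card) ∧
        (n ≤ 2 * i → (n : ℤ) * (n - 2) * (11 * n - 16) ≤ 144 * G.card) := by
    intro V Γ _ _ _ _ _ G hG hfree hinv n i hn hi
    have h1 := Pool.Agent.U319.TI.grp_real (Γ := Γ) hG hfree hinv (n : ℝ) (i : ℝ) (by rw [hn])
      (by rw [hi, invs_card])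
    -- `i ≤ n - 1` if there is a vertex
    have hi1 : 0 < n → i + 1 ≤ n := by
      intro h0
      rw [hn] at h0
      obtain ⟨x⟩ : Nonempty V := Fintype.card_pos_iff.1 h0
      have h2 : Function.Injective (fun g : Γ => g • x) := fun g h H =>
        Pool.Agent.U319.TI.free_eq hfree H
      have h3 : Fintype.card Γ ≤ n := by rw [hn]; exact Fintype.card_le_of_injective _ h2
      have h4 : i + 1 ≤ Fintype.card Γ := by
        rw [hi, ← invs_card]
        have h5 : Pool.Agent.U319.TI.invs Γ ⊂ univ := by
          rw [ssubset_univ_iff]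
          intro h
          have h6 : (1 : Γ) ∈ Pool.Agent.U319.TI.invs Γ := by rw [h]; exact mem_univ _
          exact (Pool.Agent.U319.TI.mem_invs.1 h6).1 rfl
        have := card_lt_card h5
        rw [card_univ] at this
        omega
      omega
    refine ⟨?_, ?_, ?_⟩
    · have h2 : ((6 * ((n : ℤ) * (n - 1) * (n - 2)) : ℤ) : ℝ) ≤
          ((36 * G.card + 9 * (n * i * (n - 1 - i)) + 4 * n * (n - 1 - i) ^ 2 : ℤ) : ℝ) := by
        push_cast
        exact h1
      exact_mod_cast h2
    · intro h
      rcases Nat.lt_or_ge n 4 with hn4 | hn4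
      · rw [turan_small hn4]; exact Nat.zero_le _
      have h2 := hi1 (by omega)
      have h3 : (12 : ℝ) * n ≤ 25 * i := by exact_mod_cast h
      have h4 : (i : ℝ) + 1 ≤ n := by exact_mod_cast h2
      have h5 : (4 : ℝ) ≤ n := by exact_mod_cast hn4
      refine turan_le (by omega) (B := 6 * ((n : ℝ) * (n - 1) * (n - 2)) -
        9 * ((n : ℝ) * i * (n - 1 - i)) - 4 * n * ((n : ℝ) - 1 - i) ^ 2) (by linarith) ?_
      obtain ⟨d, hd⟩ : ∃ d : ℝ, d = (n : ℝ) - 1 - i := ⟨_, rfl⟩
      have hi' : (i : ℝ) = (n : ℝ) - 1 - d := by rw [hd]; ring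
      have hd0 : 0 ≤ d := by rw [hd]; linarith
      have hd1 : 25 * d ≤ 13 * n - 25 := by rw [hd]; linarith
      rw [← hd, hi']
      have k1 : 0 ≤ (n : ℝ) * (((13 * n - 25) / 25 - d) *
          (9 * ((n : ℝ) - 1) - 5 * (d + (13 * n - 25) / 25))) :=
        mul_nonneg (by linarith) (mul_nonneg (by linarith) (by linarith))
      nlinarith [mul_nonneg (show (0 : ℝ) ≤ (n : ℝ) - 4 by linarith) (show (0 : ℝ) ≤ (n : ℝ) by linarith),
        pow_nonneg (show (0 : ℝ) ≤ (n : ℝ) by linarith) 3]
    · intro h
      rcases Nat.eq_zero_or_pos n with hn0 | hn0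
      · rw [hn0]; simp
      have h2 := hi1 hn0
      have h3 : (n : ℝ) ≤ 2 * i := by exact_mod_cast h
      have h4 : (i : ℝ) + 1 ≤ n := by exact_mod_cast h2
      obtain ⟨d, hd⟩ : ∃ d : ℝ, d = (n : ℝ) - 1 - i := ⟨_, rfl⟩
      have hi' : (i : ℝ) = (n : ℝ) - 1 - d := by rw [hd]; ring
      have hd0 : 0 ≤ d := by rw [hd]; linarith
      have hd1 : 2 * d ≤ n - 2 := by rw [hd]; linarith
      rw [← hd, hi'] at h1
      have hn1 : (0 : ℝ) ≤ n := Nat.cast_nonneg _
      have k1 : 0 ≤ (n : ℝ) * ((((n : ℝ) - 2) / 2 - d) *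
          (36 * ((n : ℝ) - 1) - 20 * (d + ((n : ℝ) - 2) / 2))) :=
        mul_nonneg (by linarith) (mul_nonneg (by linarith) (by linarith))
      have h5 : (n : ℝ) * (n - 2) * (11 * n - 16) ≤ 144 * G.card := by nlinarith
      exact_mod_cast h5
  refine ⟨main, ?_⟩
  · intro Γ _ _ _ G hG hinv h
    have h1 := main Γ Γ G hG (fun g x h => by simpa using h) (fun g e he => hinv g e he)
      (Fintype.card Γ) (involutions Γ) rfl rfl
    exact ⟨h1.2.1 (by omega), h1.2.2 h⟩

end Pool.Agent.Results.MP_466853_co.MostlyInvolutions
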