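import Pool.Agent.U319.TI.Orb
import Pool.Agent.U319.TI.P0E

/-!
# Turán's (3,4)-problem for 3-graphs with a generalized dihedral group with two orbits

Let `G` be a 3-graph in which every four vertices contain an edge, and let `Γ` be a group of
automorphisms of `G` which acts freely on the vertices with exactly two orbits, and which has a
subgroup `N` of index 2 such that all elements outside `N` are involutions (a generalized dihedral
group, for example the dihedral group of order `2 m`). Then `G` has at least
`(28.57 m³ - 42 m² + 8 m) / 6` edges, where `m = |N|` is a quarter of the number of vertices. So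
the density is at least `0.4464 > 4/9` for large `m`, and for `m ≥ 80` the 3-graph has more edges
than Turán's construction. (For one orbit see `MostlyInvolutions`.)

Here only a quarter of the pairs of vertices are exchanged by automorphisms. Proof. The group `N`
has four orbits `A`, `A'`, `B`, `B'`, all of size `m`, and the involutions outside `N` exchange `A`
with `A'` and `B` with `B'`. At least half of the triples with one exchanged pair and at least half
of the triples with two exchanged pairs are edges, by the classwise exchange inequality of
`MostlyInvolutions`. The other triples are contained in `A ∪ B`, `A' ∪ B'`, `A ∪ B'` or `A' ∪ B`.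
In the first two of these sets the bound `0.567` for the density of `K_4^3`-free 3-graphs is used
(from a six-vertex flag certificate of the starting library). For the triples that meet both `A` and
`B'`, and those that meet both `A'` and `B`, a new inequality is proved: in a `K_4^3`-free 3-graph
and for any two disjoint sets of `m` vertices, the proportion of the edges among the triples that
meet both sets is at most `0.6965` (`Pool.Agent.U319.TI.cross2`). It follows from an inequality for
pairs of graphs on four vertices: four vertices of one set and two of the other.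
-/

set_option autoImplicit false

open Finset MulAction

namespace Pool.Agent.Results.MP_466853_co.TwoDihedralOrbits

/-- `G` is a 3-graph in which every four vertices contain an edge. -/
def Covering {V : Type} [DecidableEq V] (G : Finset (Finset V)) : Prop :=
  (∀ e ∈ G, e.card = 3) ∧ ∀ S : Finset V, S.card = 4 → ∃ e ∈ G, e ⊆ S

/-- `N` has index 2 in the group `Γ` and all the elements outside `N` have order 2. -/
def GeneralizedDihedral (Γ : Type) [Group Γ] (N : Subgroup Γ) : Prop :=
  N.index = 2 ∧ ∀ g : Γ, g ∉ N → g * g = 1

/-- The group `Γ` acts freely on `V`, with exactly two orbits, and `G` is invariant. -/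
def TwoFreeOrbits (Γ V : Type) [Group Γ] [MulAction Γ V] [DecidableEq V]
    (G : Finset (Finset V)) : Prop :=
  (∀ (g : Γ) (x : V), g • x = x → g = 1) ∧ Nat.card (orbitRel.Quotient Γ V) = 2 ∧
    ∀ (g : Γ), ∀ e ∈ G, e.image (fun x => g • x) ∈ G

/-- The number of edges of Turán's construction on `n` vertices: `k(k-1)(2k-1)`, `k²(2k-1)`,
`k²(2k+1)` for `n = 3k`, `3k+1`, `3k+2`. -/
def turan (n : ℕ) : ℕ :=
  if n % 3 = 0 then (n / 3) * (n / 3 - 1) * (2 * (n / 3) - 1)
  else if n % 3 = 1 then (n / 3) ^ 2 * (2 * (n / 3) - 1)
  else (n / 3) ^ 2 * (2 * (n / 3) + 1)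

lemma flag : Pool.Agent.U319.TI.FlagBound := by
  intro U _ E hE hK
  exact Pool.Agent.U319.TI.p0_edges hE hK

theorem result (V Γ : Type) [Fintype V] [DecidableEq V] [Group Γ] [Fintype Γ] [MulAction Γ V]
    (G : Finset (Finset V)) (hG : Covering G) (N : Subgroup Γ) (hN : GeneralizedDihedral Γ N)
    (hV : TwoFreeOrbits Γ V G) :
    Fintype.card V = 4 * Nat.card N ∧
    2857 * (Nat.card N : ℤ) ^ 3 - 4200 * (Nat.card N : ℤ) ^ 2 + 800 * Nat.card N ≤
      600 * G.card ∧
    (80 ≤ Nat.card N → turan (Fintype.card V) < G.card) := by
  have h := Pool.Agent.U319.TI.two_orbits flag hG hV.1 hV.2.2 hV.2.1 N hN.1 hN.2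
    (Nat.card N : ℝ) rfl
  obtain ⟨h1, h2⟩ := h
  have h3 : Fintype.card V = 4 * Nat.card N := by exact_mod_cast h2
  refine ⟨h3, ?_, ?_⟩
  · have h4 : (2857 * (Nat.card N : ℝ) ^ 3 - 4200 * (Nat.card N : ℝ) ^ 2 + 800 * Nat.card N) ≤
        600 * G.card := by linarith
    exact_mod_cast h4
  · intro h4
    have h5 := Pool.Agent.U319.TI.turan_real (Fintype.card V) (by omega)
    have h6 : (turan (Fintype.card V) : ℝ) = (Pool.Agent.U319.TI.turan (Fintype.card V) : ℝ) := rfl
    rw [← h6, h2] at h5
    have h7 : (80 : ℝ) ≤ (Nat.card N : ℝ) := by exact_mod_cast h4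
    have h8 : (turan (Fintype.card V) : ℝ) < G.card := by
      have h9 : 0 ≤ ((Nat.card N : ℝ) - 80) * (Nat.card N : ℝ) ^ 2 :=
        mul_nonneg (by linarith) (by positivity)
      nlinarith
    exact_mod_cast h8

end Pool.Agent.Results.MP_466853_co.TwoDihedralOrbits
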