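import Pool.Agent.U378.TF.Core
import Pool.Agent.U378.TM.Core
import Pool.Agent.U378.Tour.Enc

/-!
# Turán's (3,4)-conjecture for universal rules with few relations

Let `S` be a set of relations and `σ` an involution of `S` (reversal). A structure assigns to each
ordered pair of distinct points a relation `r x y`, with `r y x = σ (r x y)`. The structures are the
oriented graphs (3 relations), the digraphs (4 relations, one pair exchanged by `σ`), the
tournaments with arcs of two colours (4 relations, two pairs exchanged), the oriented graphs with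
the pairs of non-adjacent points in any number of colours (one pair exchanged) and so on. A *rule*
is a set `F` of triples of relations; it encodes a structure by the 3-graph of all triples
`{x, y, z}` such that, for some order of its points, the triple `(r x y, r x z, r y z)` is in `F`.
The rule is *universal* if all 3-graphs encoded with it are `K_4^3`-free.

It is proved that a universal rule gives at most `5/54 n^3` edges, the bound of Turán's conjecture,
if there are at most four relations, and also if `σ` exchanges at most one pair of relations (the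
number of symmetric relations is arbitrary, also infinite). Every `K_4^3`-free 3-graph on `n`
vertices is encoded with a universal rule on `n^2` relations, so the same statement for all finite
`S` would give Turán's conjecture.

There are three cases.
* `σ` is the identity: a universal rule gives no edge at all (colour the three perfect matchings of
  four points with `x, y, z`).
* `σ` exchanges one pair of relations: all symmetric relations are merged to two (sources and other
  relations; write `x → y` if the triples with one arc, directed from the end of the pair in relation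
  `x` to the end of the pair in relation `y`, are edges; no symmetric relation is both a source and a
  sink). So there remain
  oriented graphs with the pairs of non-adjacent points in two colours and, up to symmetry, one
  maximal universal rule (`Pool.Agent.U378.TM`; a flag algebra certificate on 9608 structures with
  five points).
* `σ` exchanges two pairs of relations, with no others (two-coloured tournaments): 22 maximal
  universal rules, in four classes (`Pool.Agent.U378.TF`; two hard classes: the exact bound by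
  random pivots in `Pool.Agent.U378.Tour`, and a flag algebra certificate on 8784 structures with
  five points).
The certificates are exact at the density 5/9 and are checked by the kernel.
-/

set_option autoImplicit false
open Finset
open scoped Classical

namespace Pool.Agent.Results.MP_466853_co.UniversalRules

/-- `r` assigns a relation to each pair of points; the relation of a reversed pair is given by
`σ`. -/
def IsStructure {S : Type} (σ : S → S) {n : ℕ} (r : Fin n → Fin n → S) : Prop :=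
  ∀ x y, x ≠ y → r y x = σ (r x y)

/-- The 3-graph encoded by `r` with the rule `F`: the 3-element sets with an enumeration `x, y, z`
such that `r x y`, `r x z`, `r y z` satisfy `F`. -/
noncomputable def encoded {S : Type} (F : S → S → S → Prop) {n : ℕ} (r : Fin n → Fin n → S) :
    Finset (Finset (Fin n)) :=
  (univ.powersetCard 3).filter fun s : Finset (Fin n) =>
    ∃ x y z : Fin n, s = {x, y, z} ∧ F (r x y) (r x z) (r y z)

/-- The 3-graph `H` has no four vertices spanning all four triples. -/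
def K43Free {n : ℕ} (H : Finset (Finset (Fin n))) : Prop :=
  ∀ T : Finset (Fin n), T.card = 4 → ∃ s ⊆ T, s.card = 3 ∧ s ∉ H

/-- All 3-graphs encoded with the rule `F` are `K_4^3`-free. -/
def Universal {S : Type} (σ : S → S) (F : S → S → S → Prop) : Prop :=
  ∀ (n : ℕ) (r : Fin n → Fin n → S), IsStructure σ r → K43Free (encoded F r)

/-- Turán's number `f(n)`: `f(3s) = s(s-1)(2s-1)`, `f(3s+1) = s^2(2s-1)`, `f(3s+2) = s^2(2s+1)`.
Turán's construction has `C(n,3) - f(n)` edges. -/
def turan (n : ℕ) : ℕ :=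
  if n % 3 = 0 then (n / 3) * (n / 3 - 1) * (2 * (n / 3) - 1)
  else if n % 3 = 1 then (n / 3) ^ 2 * (2 * (n / 3) - 1)
  else (n / 3) ^ 2 * (2 * (n / 3) + 1)

/-! ### edges in terms of numbers -/

/-- `e` is an edge of the structure `rel` for the rule `G` -/
def EdgeG (G : ℕ → ℕ → ℕ → Prop) {n : ℕ} (rel : Fin n → Fin n → ℕ) (e : Finset (Fin n)) : Prop :=
  ∃ f : Fin 3 → Fin n, Function.Injective f ∧ (∀ i, f i ∈ e) ∧
    G (rel (f 0) (f 1)) (rel (f 0) (f 2)) (rel (f 1) (f 2))

/-- the rule `F` in terms of the numbers `π s` -/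
def num {S : Type} (F : S → S → S → Prop) (π : S → ℕ) (a b c : ℕ) : Prop :=
  ∃ x y z : S, F x y z ∧ π x = a ∧ π y = b ∧ π z = c

theorem inj_of_card {n : ℕ} {x y z : Fin n} (h : ({x, y, z} : Finset (Fin n)).card = 3) :
    x ≠ y ∧ x ≠ z ∧ y ≠ z := by
  refine ⟨?_, ?_, ?_⟩
  · rintro rfl
    rw [insert_eq_of_mem (mem_insert_self _ _)] at h
    exact absurd (card_le_two (a := x) (b := z)) (by omega)
  · rintro rfl
    rw [insert_eq_of_mem (by simp)] at h
    exact absurd (card_le_two (a := y) (b := x)) (by omega)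
  · rintro rfl
    rw [pair_eq_singleton] at h
    exact absurd (card_le_two (a := x) (b := y)) (by omega)

theorem mem_encoded {S : Type} {F : S → S → S → Prop} {n : ℕ} {r : Fin n → Fin n → S}
    {e : Finset (Fin n)} :
    e ∈ encoded F r ↔ e.card = 3 ∧ ∃ x y z : Fin n, e = {x, y, z} ∧
      F (r x y) (r x z) (r y z) := by
  unfold encoded
  rw [mem_filter, mem_powersetCard]
  exact ⟨fun h => ⟨h.1.2, h.2⟩, fun h => ⟨⟨subset_univ _, h.1⟩, h.2⟩⟩

theorem edge_num {S : Type} {F : S → S → S → Prop} (π : S → ℕ) {n : ℕ} {r : Fin n → Fin n → S}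
    {e : Finset (Fin n)} (h : e ∈ encoded F r) : EdgeG (num F π) (fun x y => π (r x y)) e := by
  obtain ⟨h3, x, y, z, rfl, hF⟩ := mem_encoded.1 h
  obtain ⟨h1, h2, h4⟩ := inj_of_card h3
  refine ⟨![x, y, z], ?_, ?_, _, _, _, hF, rfl, rfl, rfl⟩
  · intro i j hij
    fin_cases i <;> fin_cases j <;> simp_all
  · intro i
    fin_cases i <;> simp

theorem set_eq {n : ℕ} {e : Finset (Fin n)} (h3 : e.card = 3) {f : Fin 3 → Fin n}
    (hf : Function.Injective f) (hm : ∀ i, f i ∈ e) : e = {f 0, f 1, f 2} := by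
  refine (eq_of_subset_of_card_le ?_ ?_).symm
  · intro x hx
    simp only [mem_insert, mem_singleton] at hx
    rcases hx with rfl | rfl | rfl
    · exact hm 0
    · exact hm 1
    · exact hm 2
  · rw [h3, card_insert_of_notMem, card_pair]
    · exact fun h => absurd (hf h) (by decide)
    · simp only [mem_insert, mem_singleton, not_or]
      exact ⟨fun h => absurd (hf h) (by decide), fun h => absurd (hf h) (by decide)⟩

theorem num_edge {S : Type} {F : S → S → S → Prop} {π : S → ℕ} (hπ : Function.Injective π)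
    {n : ℕ} {r : Fin n → Fin n → S} {rel : Fin n → Fin n → ℕ}
    (hr : ∀ x y, x ≠ y → π (r x y) = rel x y) {e : Finset (Fin n)} (h3 : e.card = 3)
    (h : EdgeG (num F π) rel e) : e ∈ encoded F r := by
  obtain ⟨f, hf, hm, a, b, c, hF, h1, h2, h4⟩ := h
  rw [← hr _ _ fun h => absurd (hf h) (by decide)] at h1
  rw [← hr _ _ fun h => absurd (hf h) (by decide)] at h2
  rw [← hr _ _ fun h => absurd (hf h) (by decide)] at h4
  rw [hπ h1, hπ h2, hπ h4] at hF
  exact mem_encoded.2 ⟨h3, f 0, f 1, f 2, set_eq h3 hf hm, hF⟩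

/-- a universal rule misses a triple of each structure on four points -/
theorem free4 {S : Type} {σ : S → S} {F : S → S → S → Prop} (hU : Universal σ F) {π : S → ℕ}
    (hπ : Function.Injective π) {rv : ℕ → ℕ} (hσ : ∀ s, π (σ s) = rv (π s))
    (rel : Fin 4 → Fin 4 → ℕ) (hrel : ∀ x y, x ≠ y → rel y x = rv (rel x y)) :
    ∃ s : Finset (Fin 4), s.card = 3 ∧ ¬ EdgeG (num F π) rel s := by
  by_contra hcon
  push Not at hcon
  have key : ∀ x y : Fin 4, x ≠ y → ∃ s, π s = rel x y := by
    intro x y hxy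
    obtain ⟨z, hzx, hzy⟩ : ∃ z : Fin 4, x ≠ z ∧ y ≠ z := by
      revert x y
      decide
    have h3 : ({x, y, z} : Finset (Fin 4)).card = 3 := by
      rw [card_insert_of_notMem (by simp [hxy, hzx]), card_pair hzy]
    obtain ⟨f, hf, hm, a, b, c, -, h1, h2, h4⟩ := hcon _ h3
    have e := set_eq h3 hf hm
    have mx : x ∈ ({f 0, f 1, f 2} : Finset (Fin 4)) := by rw [← e]; simp
    have my : y ∈ ({f 0, f 1, f 2} : Finset (Fin 4)) := by rw [← e]; simp
    simp only [mem_insert, mem_singleton] at mx my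
    have n01 : f 0 ≠ f 1 := fun h => absurd (hf h) (by decide)
    have n02 : f 0 ≠ f 2 := fun h => absurd (hf h) (by decide)
    have n12 : f 1 ≠ f 2 := fun h => absurd (hf h) (by decide)
    rcases mx with rfl | rfl | rfl <;> rcases my with rfl | rfl | rfl
    · exact absurd rfl hxy
    · exact ⟨a, h1⟩
    · exact ⟨b, h2⟩
    · exact ⟨σ a, by rw [hσ, h1, hrel _ _ n01]⟩
    · exact absurd rfl hxy
    · exact ⟨c, h4⟩
    · exact ⟨σ b, by rw [hσ, h2, hrel _ _ n02]⟩
    · exact ⟨σ c, by rw [hσ, h4, hrel _ _ n12]⟩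
    · exact absurd rfl hxy
  obtain ⟨s0, -⟩ := key 0 1 (by decide)
  set r : Fin 4 → Fin 4 → S := fun x y =>
    if h : ∃ s, π s = rel x y then h.choose else s0 with hr
  have hr1 : ∀ x y, x ≠ y → π (r x y) = rel x y := by
    intro x y hxy
    have h := key x y hxy
    simp only [hr]
    rw [dif_pos h]
    exact h.choose_spec
  have hr2 : IsStructure σ r := by
    intro x y hxy
    apply hπ
    rw [hr1 y x hxy.symm, hrel x y hxy, hσ, hr1 x y hxy]
  obtain ⟨s, -, hs, hn⟩ := hU 4 r hr2 univ (by simp)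
  exact hn (num_edge hπ hr1 hs (hcon s hs))

/-! ### the two systems -/

theorem bound_F {G : ℕ → ℕ → ℕ → Prop}
    (hG : ∀ rel : Fin 4 → Fin 4 → ℕ, (∀ x y, x ≠ y → rel y x = Pool.Agent.U378.TF.rv (rel x y)) →
      ∃ s : Finset (Fin 4), s.card = 3 ∧ ¬ EdgeG G rel s)
    {n : ℕ} {rel : Fin n → Fin n → ℕ} (hr : Pool.Agent.U378.TF.Rel4 rel)
    {H : Finset (Finset (Fin n))} (hH : ∀ e ∈ H, e.card = 3)
    (hE : ∀ e ∈ H, EdgeG G rel e) : 54 * H.card ≤ 5 * n ^ 3 := by
  have key : ∀ {m : ℕ} {rel : Fin m → Fin m → ℕ} (_ : Pool.Agent.U378.TF.Rel4 rel)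
      (e : Finset (Fin m)), Pool.Agent.U378.TF.Core.Edge
        (fun c => G (Pool.Agent.U378.TF.dg0 c) (Pool.Agent.U378.TF.dg1 c)
          (Pool.Agent.U378.TF.dg2 c)) rel e ↔ EdgeG G rel e := by
    intro m rel hr e
    unfold Pool.Agent.U378.TF.Core.Edge EdgeG Pool.Agent.U378.TF.c3
    refine exists_congr fun f => and_congr_right fun _ => and_congr_right fun _ => ?_
    beta_reduce
    rw [Pool.Agent.U378.TF.dg0_q4 (hr.lt _ _), Pool.Agent.U378.TF.dg1_q4 (hr.lt _ _) (hr.lt _ _),
      Pool.Agent.U378.TF.dg2_q4 (hr.lt _ _) (hr.lt _ _)]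
  refine Pool.Agent.U378.TF.Core.rule_bound (F := fun c => G (Pool.Agent.U378.TF.dg0 c)
    (Pool.Agent.U378.TF.dg1 c) (Pool.Agent.U378.TF.dg2 c)) ?_ hr hH fun e he =>
    (key hr e).2 (hE e he)
  intro rel' hr'
  obtain ⟨s, hs, hn⟩ := hG rel' hr'.rev
  exact ⟨s, hs, fun h => hn ((key hr' s).1 h)⟩

theorem bound_M {G : ℕ → ℕ → ℕ → Prop}
    (hG : ∀ rel : Fin 4 → Fin 4 → ℕ, (∀ x y, x ≠ y → rel y x = Pool.Agent.U378.TM.rv (rel x y)) →
      ∃ s : Finset (Fin 4), s.card = 3 ∧ ¬ EdgeG G rel s)
    {n : ℕ} {rel : Fin n → Fin n → ℕ} (hr : Pool.Agent.U378.TM.Rel4 rel)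
    {H : Finset (Finset (Fin n))} (hH : ∀ e ∈ H, e.card = 3)
    (hE : ∀ e ∈ H, EdgeG G rel e) : 54 * H.card ≤ 5 * n ^ 3 := by
  have key : ∀ {m : ℕ} {rel : Fin m → Fin m → ℕ} (_ : Pool.Agent.U378.TM.Rel4 rel)
      (e : Finset (Fin m)), Pool.Agent.U378.TM.Core.Edge
        (fun c => G (Pool.Agent.U378.TM.dg0 c) (Pool.Agent.U378.TM.dg1 c)
          (Pool.Agent.U378.TM.dg2 c)) rel e ↔ EdgeG G rel e := by
    intro m rel hr e
    unfold Pool.Agent.U378.TM.Core.Edge EdgeG Pool.Agent.U378.TM.c3
    refine exists_congr fun f => and_congr_right fun _ => and_congr_right fun _ => ?_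
    beta_reduce
    rw [Pool.Agent.U378.TM.dg0_q4 (hr.lt _ _), Pool.Agent.U378.TM.dg1_q4 (hr.lt _ _) (hr.lt _ _),
      Pool.Agent.U378.TM.dg2_q4 (hr.lt _ _) (hr.lt _ _)]
  refine Pool.Agent.U378.TM.Core.rule_bound (F := fun c => G (Pool.Agent.U378.TM.dg0 c)
    (Pool.Agent.U378.TM.dg1 c) (Pool.Agent.U378.TM.dg2 c)) ?_ hr hH fun e he =>
    (key hr e).2 (hE e he)
  intro rel' hr'
  obtain ⟨s, hs, hn⟩ := hG rel' hr'.rev
  exact ⟨s, hs, fun h => hn ((key hr' s).1 h)⟩

/-! ### the involution is the identity -/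

/-- the relation between two of four points: the three perfect matchings -/
def pm {S : Type} (a b c : S) : Fin 4 → Fin 4 → S :=
  ![![a, a, b, c], ![a, a, c, b], ![b, c, a, a], ![c, b, a, a]]

theorem empty_of_id {S : Type} {σ : S → S} (hσ : ∀ s, σ s = s) {F : S → S → S → Prop}
    (hU : Universal σ F) (a b c : S) : ¬ F a b c := by
  intro hF
  have hs : IsStructure σ (pm a b c) := by
    intro x y hxy
    rw [hσ]
    fin_cases x <;> fin_cases y <;> rfl
  obtain ⟨s, -, hs3, hn⟩ := hU 4 _ hs univ (by simp)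
  have h4 : ∀ s : Finset (Fin 4), s.card = 3 →
      s = {0, 1, 2} ∨ s = {1, 0, 3} ∨ s = {2, 3, 0} ∨ s = {3, 2, 1} := by decide
  apply hn
  rw [mem_encoded]
  refine ⟨hs3, ?_⟩
  rcases h4 s hs3 with h | h | h | h
  · exact ⟨0, 1, 2, h, hF⟩
  · exact ⟨1, 0, 3, h, hF⟩
  · exact ⟨2, 3, 0, h, hF⟩
  · exact ⟨3, 2, 1, h, hF⟩

/-! ### numbering the relations -/

theorem invol : ∀ τ : Fin 4 → Fin 4, (∀ i, τ (τ i) = i) → (∀ i, τ i = i) ∨
    (∃ π : Fin 4 → Fin 4, Function.Injective π ∧
      ∀ i, (π (τ i)).val = Pool.Agent.U378.TM.rv (π i).val) ∨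
    (∃ π : Fin 4 → Fin 4, Function.Injective π ∧
      ∀ i, (π (τ i)).val = Pool.Agent.U378.TF.rv (π i).val) := by
  decide +kernel

theorem numbering {S : Type} [Fintype S] (h4 : Fintype.card S ≤ 4) {σ : S → S}
    (hσ : ∀ s, σ (σ s) = s) : (∀ s, σ s = s) ∨
    (∃ π : S → ℕ, Function.Injective π ∧ (∀ s, π s < 4) ∧
      ∀ s, π (σ s) = Pool.Agent.U378.TM.rv (π s)) ∨
    (∃ π : S → ℕ, Function.Injective π ∧ (∀ s, π s < 4) ∧
      ∀ s, π (σ s) = Pool.Agent.U378.TF.rv (π s)) := by
  obtain ⟨e⟩ : Nonempty (S ↪ Fin 4) :=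
    Function.Embedding.nonempty_of_card_le (by rw [Fintype.card_fin]; exact h4)
  set τ : Fin 4 → Fin 4 := fun j => if h : ∃ s, e s = j then e (σ h.choose) else j with hτ
  have h1 : ∀ s, τ (e s) = e (σ s) := by
    intro s
    have h : ∃ t, e t = e s := ⟨s, rfl⟩
    simp only [hτ]
    rw [dif_pos h, e.injective h.choose_spec]
  have h2 : ∀ j, τ (τ j) = j := by
    intro j
    by_cases h : ∃ s, e s = j
    · obtain ⟨s, rfl⟩ := h
      rw [h1, h1, hσ]
    · have : τ j = j := by
        simp only [hτ]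
        rw [dif_neg h]
      rw [this, this]
  rcases invol τ h2 with h | ⟨π, hi, h⟩ | ⟨π, hi, h⟩
  · refine Or.inl fun s => e.injective ?_
    rw [← h1, h]
  · refine Or.inr (Or.inl ⟨fun s => (π (e s)).val, fun s t hst => ?_, fun s => (π (e s)).isLt,
      fun s => ?_⟩)
    · exact e.injective (hi (Fin.ext hst))
    · show (π (e (σ s))).val = _
      rw [← h1, h]
  · refine Or.inr (Or.inr ⟨fun s => (π (e s)).val, fun s t hst => ?_, fun s => (π (e s)).isLt,
      fun s => ?_⟩)
    · exact e.injective (hi (Fin.ext hst))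
    · show (π (e (σ s))).val = _
      rw [← h1, h]

theorem upper {S : Type} [Fintype S] (h4 : Fintype.card S ≤ 4) {σ : S → S}
    (hσ : ∀ s, σ (σ s) = s) {F : S → S → S → Prop} (hU : Universal σ F) {n : ℕ}
    {r : Fin n → Fin n → S} (hr : IsStructure σ r) : 54 * (encoded F r).card ≤ 5 * n ^ 3 := by
  rcases numbering h4 hσ with h | ⟨π, hi, hl, h⟩ | ⟨π, hi, hl, h⟩
  · have : encoded F r = ∅ := by
      refine eq_empty_of_forall_notMem fun e he => ?_
      obtain ⟨-, x, y, z, -, hF⟩ := mem_encoded.1 he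
      exact empty_of_id h hU _ _ _ hF
    rw [this]
    simp
  · refine bound_M (G := num F π) (fun rel hrel => free4 hU hi h rel hrel)
      (rel := fun x y => π (r x y)) ⟨fun x y => hl _, fun x y hxy => ?_⟩
      (fun e he => (mem_encoded.1 he).1) fun e he => edge_num π he
    show π (r y x) = _
    rw [hr x y hxy, h]
  · refine bound_F (G := num F π) (fun rel hrel => free4 hU hi h rel hrel)
      (rel := fun x y => π (r x y)) ⟨fun x y => hl _, fun x y hxy => ?_⟩
      (fun e he => (mem_encoded.1 he).1) fun e he => edge_num π he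
    show π (r y x) = _
    rw [hr x y hxy, h]

/-! ### one pair of relations exchanged, any number of symmetric relations -/

section symmetric

variable {S : Type} {σ : S → S} {F : S → S → S → Prop}

/-- three points `0, 1, 2` with the relations `a, b, c` between `0 1`, `0 2`, `1 2` form an edge -/
def E (σ : S → S) (F : S → S → S → Prop) (a b c : S) : Prop :=
  F a b c ∨ F b a (σ c) ∨ F (σ a) c b ∨ F c (σ a) (σ b) ∨ F (σ b) (σ c) a ∨ F (σ c) (σ b) (σ a)

theorem E23 (hσ : ∀ s, σ (σ s) = s) {a b c : S} (h : E σ F a b c) : E σ F b a (σ c) := by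
  unfold E at h ⊢
  rw [hσ]
  tauto

theorem E12 (hσ : ∀ s, σ (σ s) = s) {a b c : S} (h : E σ F a b c) : E σ F (σ a) c b := by
  unfold E at h ⊢
  rw [hσ]
  tauto

theorem E201 (hσ : ∀ s, σ (σ s) = s) {a b c : S} (h : E σ F a b c) : E σ F (σ b) (σ c) a :=
  E12 hσ (E23 hσ h)

theorem mem_of_E {n : ℕ} {r : Fin n → Fin n → S} (hr : IsStructure σ r) {x y z : Fin n}
    (hxy : x ≠ y) (hxz : x ≠ z) (hyz : y ≠ z) (h : E σ F (r x y) (r x z) (r y z)) :
    ({x, y, z} : Finset (Fin n)) ∈ encoded F r := by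
  refine mem_encoded.2 ⟨card_eq_three.2 ⟨x, y, z, hxy, hxz, hyz, rfl⟩, ?_⟩
  unfold E at h
  rw [← hr x y hxy, ← hr x z hxz, ← hr y z hyz] at h
  rcases h with h | h | h | h | h | h
  · exact ⟨x, y, z, rfl, h⟩
  · exact ⟨x, z, y, by ext t; simp only [mem_insert, mem_singleton]; tauto, h⟩
  · exact ⟨y, x, z, by ext t; simp only [mem_insert, mem_singleton]; tauto, h⟩
  · exact ⟨y, z, x, by ext t; simp only [mem_insert, mem_singleton]; tauto, h⟩
  · exact ⟨z, x, y, by ext t; simp only [mem_insert, mem_singleton]; tauto, h⟩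
  · exact ⟨z, y, x, by ext t; simp only [mem_insert, mem_singleton]; tauto, h⟩

theorem E_of_mem {n : ℕ} {r : Fin n → Fin n → S} (hr : IsStructure σ r) {x y z : Fin n}
    (hxy : x ≠ y) (hxz : x ≠ z) (hyz : y ≠ z)
    (h : ({x, y, z} : Finset (Fin n)) ∈ encoded F r) : E σ F (r x y) (r x z) (r y z) := by
  obtain ⟨-, u, v, w, he, hF⟩ := mem_encoded.1 h
  have mx : u ∈ ({x, y, z} : Finset (Fin n)) := by rw [he]; simp
  have my : v ∈ ({x, y, z} : Finset (Fin n)) := by rw [he]; simp
  have mz : w ∈ ({x, y, z} : Finset (Fin n)) := by rw [he]; simp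
  have h3' : ({u, v, w} : Finset (Fin n)).card = 3 := by
    rw [← he, card_insert_of_notMem (by simp [hxy, hxz]), card_pair hyz]
  obtain ⟨nxy, nxz, nyz⟩ := inj_of_card h3'
  unfold E
  rw [← hr x y hxy, ← hr x z hxz, ← hr y z hyz]
  simp only [mem_insert, mem_singleton] at mx my mz
  rcases mx with rfl | rfl | rfl <;> rcases my with rfl | rfl | rfl <;>
    rcases mz with rfl | rfl | rfl <;>
    first
    | exact absurd rfl nxy
    | exact absurd rfl nxz
    | exact absurd rfl nyz
    | exact Or.inl hF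
    | exact Or.inr (Or.inl hF)
    | exact Or.inr (Or.inr (Or.inl hF))
    | exact Or.inr (Or.inr (Or.inr (Or.inl hF)))
    | exact Or.inr (Or.inr (Or.inr (Or.inr (Or.inl hF))))
    | exact Or.inr (Or.inr (Or.inr (Or.inr (Or.inr hF))))

/-- four points with given relations -/
def s4 (σ : S → S) (a b c d e f : S) : Fin 4 → Fin 4 → S :=
  ![![a, a, b, d], ![σ a, a, c, e], ![σ b, σ c, a, f], ![σ d, σ e, σ f, a]]

theorem u4 (hσ : ∀ s, σ (σ s) = s) (hU : Universal σ F) {a b c d e f : S} (h0 : E σ F a b c)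
    (h1 : E σ F a d e) (h2 : E σ F b d f) (h3 : E σ F c e f) : False := by
  have hr : IsStructure σ (s4 σ a b c d e f) := by
    intro i j hij
    fin_cases i <;> fin_cases j <;> first
      | exact absurd rfl hij
      | rfl
      | exact (hσ _).symm
  obtain ⟨s, -, hs, hn⟩ := hU 4 _ hr univ (by simp)
  have h4 : ∀ s : Finset (Fin 4), s.card = 3 →
      s = {0, 1, 2} ∨ s = {0, 1, 3} ∨ s = {0, 2, 3} ∨ s = {1, 2, 3} := by decide
  rcases h4 s hs with h | h | h | h <;> rw [h] at hn
  · exact hn (mem_of_E hr (by decide) (by decide) (by decide) h0)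
  · exact hn (mem_of_E hr (by decide) (by decide) (by decide) h1)
  · exact hn (mem_of_E hr (by decide) (by decide) (by decide) h2)
  · exact hn (mem_of_E hr (by decide) (by decide) (by decide) h3)

/-- three symmetric relations -/
theorem T0 (hσ : ∀ s, σ (σ s) = s) (hU : Universal σ F) {x y z : S} (hx : σ x = x)
    (hy : σ y = y) (hz : σ z = z) (h : E σ F x y z) : False := by
  have h1 := E12 hσ h
  rw [hx] at h1
  have h2 := E201 hσ h
  rw [hy, hz] at h2
  have h3 := E23 hσ h2
  rw [hx] at h3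
  exact u4 hσ hU h h1 h2 h3

/-- one arc, between different symmetric relations: no symmetric relation is both a source and a
sink -/
theorem T3 (hσ : ∀ s, σ (σ s) = s) (hU : Universal σ F) {x y z d : S} (hx : σ x = x)
    (hy : σ y = y) (hz : σ z = z) (h : E σ F x y d) (h' : E σ F y z d) : False := by
  have h1 := E12 hσ h
  rw [hx] at h1
  have h2 := E12 hσ h'
  rw [hy] at h2
  have h3 := E23 hσ h2
  rw [hz] at h3
  exact u4 hσ hU h h1 h2 h3

/-- in-stars and out-stars exclude each other -/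
theorem T4 (hσ : ∀ s, σ (σ s) = s) (hU : Universal σ F) {x y d : S}
    (h : E σ F x d d) (h' : E σ F y (σ d) (σ d)) : False := by
  have h2 := E201 hσ h'
  rw [hσ] at h2
  exact u4 hσ hU h h h2 h2

/-- no path -/
theorem T5 (hσ : ∀ s, σ (σ s) = s) (hU : Universal σ F) {x d : S} (hx : σ x = x)
    (h : E σ F x d (σ d)) : False := by
  have h1 := E12 hσ h
  rw [hx] at h1
  have h2 := E201 hσ h1
  rw [hσ] at h2
  have h3 := E201 hσ h
  rw [hσ] at h3
  exact u4 hσ hU h h1 h2 h3

/-- no transitive triple -/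
theorem T6 (hσ : ∀ s, σ (σ s) = s) (hU : Universal σ F) {d : S} (h : E σ F d d d) : False :=
  u4 hσ hU h h h h

open Pool.Agent.U378.TM in
theorem tq : ∀ x < 4, ∀ y < 4, ∀ z < 4, tp (q4 y x (rv z)) = tp (q4 x y z) ∧
    tp (q4 (rv x) z y) = tp (q4 x y z) := by decide +kernel

/-- the relations merged to four: `d`, `σ d`, sources, other symmetric relations -/
noncomputable def ph (σ : S → S) (F : S → S → S → Prop) (d s : S) : ℕ :=
  if s = d then 2 else if s = σ d then 3 else if ∃ y, σ y = y ∧ E σ F s y d then 0 else 1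

theorem ph_lt (d s : S) : ph σ F d s < 4 := by
  unfold ph
  split_ifs <;> norm_num

theorem ph_d (d : S) : ph σ F d d = 2 := by
  unfold ph
  rw [if_pos rfl]

theorem ph_d' {d : S} (hd : σ d ≠ d) : ph σ F d (σ d) = 3 := by
  unfold ph
  rw [if_neg hd, if_pos rfl]

theorem ph_sym {d s : S} (hσ : ∀ s, σ (σ s) = s) (hd : σ d ≠ d) (hs : σ s = s) :
    ph σ F d s = if ∃ y, σ y = y ∧ E σ F s y d then 0 else 1 := by
  unfold ph
  rw [if_neg, if_neg]
  · rintro rfl
    rw [hσ] at hs
    exact hd hs.symm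
  · rintro rfl
    exact hd hs

theorem ph_rv {d : S} (hσ : ∀ s, σ (σ s) = s) (hd : σ d ≠ d)
    (h2 : ∀ s, σ s = s ∨ s = d ∨ s = σ d) (s : S) :
    ph σ F d (σ s) = Pool.Agent.U378.TM.rv (ph σ F d s) := by
  rcases h2 s with h | h | h
  · rw [h, ph_sym hσ hd h]
    split_ifs <;> decide
  · rw [h, ph_d, ph_d' hd]
    decide
  · rw [h, hσ, ph_d, ph_d' hd]
    decide

/-- the value of `bit M` at the merged relations -/
def PP (σ : S → S) (F : S → S → S → Prop) (M : ℕ) (d a b c : S) : Prop :=
  Pool.Agent.U378.TM.bit M (Pool.Agent.U378.TM.tp (Pool.Agent.U378.TM.q4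
    (ph σ F d a) (ph σ F d b) (ph σ F d c))) = 1

section
variable (hσ : ∀ s, σ (σ s) = s) (hU : Universal σ F) {d : S} (hd : σ d ≠ d)
  (h2 : ∀ s, σ s = s ∨ s = d ∨ s = σ d) {M : ℕ}
include hσ hd h2

theorem P23 {a b c : S} (h : PP σ F M d b a (σ c)) : PP σ F M d a b c := by
  unfold PP at h ⊢
  rw [ph_rv hσ hd h2, (tq _ (ph_lt d a) _ (ph_lt d b) _ (ph_lt d c)).1] at h
  exact h

theorem P12 {a b c : S} (h : PP σ F M d (σ a) c b) : PP σ F M d a b c := by
  unfold PP at h ⊢
  rw [ph_rv hσ hd h2, (tq _ (ph_lt d a) _ (ph_lt d b) _ (ph_lt d c)).2] at h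
  exact h

include hU

/-- two symmetric relations -/
theorem two (hM : Pool.Agent.U378.TM.bit M (Pool.Agent.U378.TM.tp
    (Pool.Agent.U378.TM.q4 0 1 2)) = 1) {a b c : S} (ha : σ a = a) (hb : σ b = b)
    (hc : c = d ∨ c = σ d) (h : E σ F a b c) : PP σ F M d a b c := by
  have key : ∀ {x y : S}, σ x = x → σ y = y → E σ F x y d → PP σ F M d x y d := by
    intro x y hx hy h
    unfold PP
    rw [ph_sym hσ hd hx, ph_sym hσ hd hy, ph_d, if_pos ⟨y, hy, h⟩, if_neg]
    · exact hM
    · rintro ⟨z, hz, hz'⟩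
      exact T3 hσ hU hx hy hz h hz'
  rcases hc with rfl | rfl
  · exact key ha hb h
  · have h3 := E23 hσ h
    rw [hσ] at h3
    refine P23 hσ hd h2 ?_
    rw [hσ]
    exact key hb ha h3

/-- one symmetric relation -/
theorem one (hin : (∀ x < 2, Pool.Agent.U378.TM.bit M (Pool.Agent.U378.TM.tp
      (Pool.Agent.U378.TM.q4 x 2 2)) = 1) ∨ ¬ ∃ x, σ x = x ∧ E σ F x d d)
    (hout : (∀ x < 2, Pool.Agent.U378.TM.bit M (Pool.Agent.U378.TM.tp
      (Pool.Agent.U378.TM.q4 x 3 3)) = 1) ∨ ∃ x, σ x = x ∧ E σ F x d d)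
    {a b c : S} (ha : σ a = a) (hb : b = d ∨ b = σ d)
    (hc : c = d ∨ c = σ d) (h : E σ F a b c) : PP σ F M d a b c := by
  have hx : ph σ F d a < 2 := by
    rw [ph_sym hσ hd ha]
    split_ifs <;> norm_num
  rcases hb with rfl | rfl <;> rcases hc with rfl | rfl
  · rcases hin with hin | hin
    · unfold PP
      rw [ph_d]
      exact hin _ hx
    · exact absurd ⟨a, ha, h⟩ hin
  · exact (T5 hσ hU ha h).elim
  · have h1 := E12 hσ h
    rw [ha] at h1
    exact (T5 hσ hU ha h1).elim
  · rcases hout with hout | ⟨x, -, hx'⟩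
    · unfold PP
      rw [ph_d' hd]
      exact hout _ hx
    · exact (T4 hσ hU hx' h).elim

/-- no symmetric relation -/
theorem zero (hc1 : Pool.Agent.U378.TM.bit M (Pool.Agent.U378.TM.tp
      (Pool.Agent.U378.TM.q4 2 3 2)) = 1)
    (hc2 : Pool.Agent.U378.TM.bit M (Pool.Agent.U378.TM.tp
      (Pool.Agent.U378.TM.q4 3 2 3)) = 1)
    {a b c : S} (ha : a = d ∨ a = σ d) (hb : b = d ∨ b = σ d)
    (hc : c = d ∨ c = σ d) (h : E σ F a b c) : PP σ F M d a b c := by
  rcases ha with rfl | rfl <;> rcases hb with rfl | rfl <;> rcases hc with rfl | rfl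
  · exact (T6 hσ hU h).elim
  · have h1 := E23 hσ h
    rw [hσ] at h1
    exact (T6 hσ hU h1).elim
  · unfold PP
    rw [ph_d, ph_d' hd]
    exact hc1
  · have h1 := E12 hσ (E23 hσ h)
    rw [hσ] at h1
    exact (T6 hσ hU h1).elim
  · have h1 := E12 hσ h
    rw [hσ] at h1
    exact (T6 hσ hU h1).elim
  · unfold PP
    rw [ph_d, ph_d' hd]
    exact hc2
  · have h1 := E23 hσ (E12 hσ h)
    rw [hσ] at h1
    exact (T6 hσ hU h1).elim
  · have h1 := E23 hσ (E12 hσ (E23 hσ h))
    simp only [hσ] at h1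
    exact (T6 hσ hU h1).elim

theorem all (h0 : Pool.Agent.U378.TM.bit M (Pool.Agent.U378.TM.tp
      (Pool.Agent.U378.TM.q4 0 1 2)) = 1)
    (hin : (∀ x < 2, Pool.Agent.U378.TM.bit M (Pool.Agent.U378.TM.tp
      (Pool.Agent.U378.TM.q4 x 2 2)) = 1) ∨ ¬ ∃ x, σ x = x ∧ E σ F x d d)
    (hout : (∀ x < 2, Pool.Agent.U378.TM.bit M (Pool.Agent.U378.TM.tp
      (Pool.Agent.U378.TM.q4 x 3 3)) = 1) ∨ ∃ x, σ x = x ∧ E σ F x d d)
    (hc1 : Pool.Agent.U378.TM.bit M (Pool.Agent.U378.TM.tp
      (Pool.Agent.U378.TM.q4 2 3 2)) = 1)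
    (hc2 : Pool.Agent.U378.TM.bit M (Pool.Agent.U378.TM.tp
      (Pool.Agent.U378.TM.q4 3 2 3)) = 1)
    {a b c : S} (h : E σ F a b c) : PP σ F M d a b c := by
  have fl : ∀ {s : S}, (s = d ∨ s = σ d) → (σ s = d ∨ σ s = σ d) := by
    rintro s (rfl | rfl)
    · exact Or.inr rfl
    · exact Or.inl (hσ _)
  rcases h2 a with ha | ha <;> rcases h2 b with hb | hb <;> rcases h2 c with hc | hc
  · exact (T0 hσ hU ha hb hc h).elim
  · exact two hσ hU hd h2 h0 ha hb hc h
  · refine P12 hσ hd h2 ?_
    have h1 := E12 hσ h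
    rw [ha] at h1 ⊢
    exact two hσ hU hd h2 h0 ha hc hb h1
  · exact one hσ hU hd h2 hin hout ha hb hc h
  · refine P23 hσ hd h2 (P12 hσ hd h2 ?_)
    have h1 := E12 hσ (E23 hσ h)
    rw [hb, hc] at h1 ⊢
    exact two hσ hU hd h2 h0 hb hc ha h1
  · refine P23 hσ hd h2 ?_
    exact one hσ hU hd h2 hin hout hb ha (fl hc) (E23 hσ h)
  · refine P12 hσ hd h2 (P23 hσ hd h2 ?_)
    exact one hσ hU hd h2 hin hout hc (fl ha) (fl hb) (E23 hσ (E12 hσ h))
  · exact zero hσ hU hd h2 hc1 hc2 ha hb hc h

theorem upper' {n : ℕ} {r : Fin n → Fin n → S} (hr : IsStructure σ r) :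
    54 * (encoded F r).card ≤ 5 * n ^ 3 := by
  have hrel : Pool.Agent.U378.TM.Rel4 (fun x y => ph σ F d (r x y)) := by
    refine ⟨fun x y => ph_lt _ _, fun x y hxy => ?_⟩
    show ph σ F d (r y x) = _
    rw [hr x y hxy, ph_rv hσ hd h2]
  by_cases hin : ∃ x, σ x = x ∧ E σ F x d d
  · refine Pool.Agent.U378.TM.max_bound (fun e he => (mem_encoded.1 he).1) hrel
      (M := (34896, 0, 34896)) (by decide +kernel) fun x y z hxy hxz hyz he => ?_
    exact all hσ hU hd h2 (M := 34896) (by decide +kernel) (Or.inl (by decide +kernel))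
      (Or.inr hin) (by decide +kernel) (by decide +kernel) (E_of_mem hr hxy hxz hyz he)
  · refine Pool.Agent.U378.TM.max_bound (fun e he => (mem_encoded.1 he).1) hrel
      (M := (41232, 3, 34896)) (by decide +kernel) fun x y z hxy hxz hyz he => ?_
    exact all hσ hU hd h2 (M := 41232) (by decide +kernel) (Or.inr hin)
      (Or.inl (by decide +kernel)) (by decide +kernel) (by decide +kernel)
      (E_of_mem hr hxy hxz hyz he)

end

end symmetric

theorem upper_sym {S : Type} {σ : S → S} (hσ : ∀ s, σ (σ s) = s) {d : S}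
    (h2 : ∀ s, σ s = s ∨ s = d ∨ s = σ d) {F : S → S → S → Prop} (hU : Universal σ F) {n : ℕ}
    {r : Fin n → Fin n → S} (hr : IsStructure σ r) : 54 * (encoded F r).card ≤ 5 * n ^ 3 := by
  by_cases hd : σ d = d
  · have hid : ∀ s, σ s = s := by
      intro s
      rcases h2 s with h | h | h
      · exact h
      · rw [h, hd]
      · rw [h, hd, hd]
    have : encoded F r = ∅ := by
      refine eq_empty_of_forall_notMem fun e he => ?_
      obtain ⟨-, x, y, z, -, hF⟩ := mem_encoded.1 he
      exact empty_of_id hid hU _ _ _ hF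
    rw [this]
    simp
  · exact upper' hσ hU hd h2 hr

/-! ### sharpness -/

/-- exchange of `0, 2` and of `1, 3` -/
def rev2 : Fin 4 → Fin 4 := ![2, 3, 0, 1]

/-- `z x` and `z y` are 2 or 3, not both are 2, and `x y` is 0 or 2 -/
def F0 (a b c : Fin 4) : Prop :=
  2 ≤ a.val ∧ 2 ≤ b.val ∧ c.val % 2 = 0 ∧ ¬ (a.val % 2 = 0 ∧ b.val % 2 = 0)

/-- the arcs of a structure -/
def Dr {n : ℕ} (r : Fin n → Fin n → Fin 4) (x y : Fin n) : Prop := x ≠ y ∧ 2 ≤ (r x y).val

/-- the pairs of even colour of a structure -/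
def Pr {n : ℕ} (r : Fin n → Fin n → Fin 4) (x y : Fin n) : Prop := x ≠ y ∧ (r x y).val % 2 = 0

theorem encoded_F0 {n : ℕ} (r : Fin n → Fin n → Fin 4) :
    encoded F0 r = Pool.Agent.U378.Tour.Enc.encoded (Dr r) (Pr r) := by
  ext e
  constructor
  · intro h
    obtain ⟨h3, x, y, z, rfl, h1, h2, h4, h5⟩ := mem_encoded.1 h
    obtain ⟨n1, n2, n3⟩ := inj_of_card h3
    exact Pool.Agent.U378.Tour.Enc.mem_enc h3 ⟨x, by simp, y, by simp, z, by simp, n3, ⟨n1, h1⟩,
      ⟨n2, h2⟩, ⟨n3, h4⟩, fun h => h5 ⟨h.1.2, h.2.2⟩⟩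
  · intro h
    unfold Pool.Agent.U378.Tour.Enc.encoded at h
    rw [mem_filter, mem_powersetCard] at h
    obtain ⟨⟨-, h3⟩, z, hz, x, hx, y, hy, hxy, h1, h2, h4, h5⟩ := h
    refine mem_encoded.2 ⟨h3, z, x, y, ?_, h1.2, h2.2, h4.2,
      fun h => h5 ⟨⟨h1.1, h.1⟩, ⟨h2.1, h.2⟩⟩⟩
    have hc : ({z, x, y} : Finset (Fin n)).card = 3 := by
      rw [card_insert_of_notMem (by simp [h1.1, h2.1]), card_pair hxy]
    refine (eq_of_subset_of_card_le (fun t ht => ?_) (by omega)).symm
    simp only [mem_insert, mem_singleton] at ht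
    rcases ht with rfl | rfl | rfl <;> assumption

theorem universal_F0 : Universal rev2 F0 := by
  intro n r hr
  rw [encoded_F0]
  refine Pool.Agent.U378.Tour.Enc.k43 (fun x y h1 h2 => ?_) fun x y h1 => ⟨h1.1.symm, ?_⟩
  · have h3 := h2.2
    rw [hr x y h1.1] at h3
    have h4 := h1.2
    revert h3 h4
    generalize r x y = s
    revert s
    decide
  · rw [hr x y h1.1]
    have h4 := h1.2
    revert h4
    generalize r x y = s
    revert s
    decide

/-- the structure of the reversed order and the graph `G` -/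
noncomputable def str {n : ℕ} (G : Fin n → Fin n → Prop) (x y : Fin n) : Fin 4 :=
  if y < x then (if G y x then 2 else 3) else (if G x y then 0 else 1)

theorem lower (n : ℕ) : ∃ r : Fin n → Fin n → Fin 4, IsStructure rev2 r ∧
    (encoded F0 r).card + turan n = n.choose 3 := by
  obtain ⟨G, hG⟩ := Pool.Agent.U378.Tour.Enc.lower n
  refine ⟨str G, ?_, ?_⟩
  · intro x y hxy
    unfold str
    rcases lt_or_gt_of_ne hxy with h | h
    · rw [if_pos h, if_neg h.asymm]
      by_cases h1 : G x y
      · rw [if_pos h1, if_pos h1]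
        rfl
      · rw [if_neg h1, if_neg h1]
        rfl
    · rw [if_pos h, if_neg h.asymm]
      by_cases h1 : G y x
      · rw [if_pos h1, if_pos h1]
        rfl
      · rw [if_neg h1, if_neg h1]
        rfl
  · have e1 : Dr (str G) = Pool.Agent.U378.Tour.Enc.ord := by
      funext x y
      apply propext
      unfold Dr str Pool.Agent.U378.Tour.Enc.ord
      by_cases h : y < x
      · rw [if_pos h]
        refine ⟨fun _ => h, fun _ => ⟨h.ne', ?_⟩⟩
        split_ifs <;> decide
      · rw [if_neg h]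
        refine ⟨fun h1 => absurd h1.2 ?_, fun h1 => absurd h1 h⟩
        split_ifs <;> decide
    have e2 : Pr (str G) = Pool.Agent.U378.Tour.Enc.sy G := by
      funext x y
      apply propext
      unfold Pr str Pool.Agent.U378.Tour.Enc.sy
      rcases lt_trichotomy x y with h | h | h
      · rw [if_neg h.asymm]
        by_cases h1 : G x y
        · rw [if_pos h1]
          exact ⟨fun _ => Or.inl ⟨h, h1⟩, fun _ => ⟨h.ne, rfl⟩⟩
        · rw [if_neg h1]
          refine ⟨fun h2 => absurd h2.2 (by decide), fun h2 => ?_⟩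
          rcases h2 with h2 | h2
          · exact absurd h2.2 h1
          · exact absurd h2.1 h.asymm
      · subst h
        refine ⟨fun h2 => absurd rfl h2.1, fun h2 => ?_⟩
        rcases h2 with h2 | h2 <;> exact absurd h2.1 (lt_irrefl _)
      · rw [if_pos h]
        by_cases h1 : G y x
        · rw [if_pos h1]
          exact ⟨fun _ => Or.inr ⟨h, h1⟩, fun _ => ⟨h.ne', rfl⟩⟩
        · rw [if_neg h1]
          refine ⟨fun h2 => absurd h2.2 (by decide), fun h2 => ?_⟩
          rcases h2 with h2 | h2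
          · exact absurd h2.1 h.asymm
          · exact absurd h2.2 h1
    rw [encoded_F0, e1, e2]
    exact hG

/-! ### every `K_4^3`-free 3-graph is encoded with a universal rule -/

/-- the rule of the 3-graph `H`: the relations are the pairs of vertices -/
def ruleOf {n : ℕ} (H : Finset (Finset (Fin n))) (a b c : Fin n × Fin n) : Prop :=
  ∃ u v w : Fin n, ({u, v, w} : Finset (Fin n)) ∈ H ∧ a = (u, v) ∧ b = (u, w) ∧ c = (v, w)

theorem labels {n m : ℕ} {H : Finset (Finset (Fin n))} {r : Fin m → Fin m → Fin n × Fin n}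
    (hr : IsStructure Prod.swap r) {a b c : Fin m} (hab : a ≠ b) (hac : a ≠ c) (hbc : b ≠ c)
    (h : ({a, b, c} : Finset (Fin m)) ∈ encoded (ruleOf H) r) :
    ruleOf H (r a b) (r a c) (r b c) := by
  obtain ⟨-, x, y, z, he, u, v, w, hH, h1, h2, h3⟩ := mem_encoded.1 h
  have mx : x ∈ ({a, b, c} : Finset (Fin m)) := by rw [he]; simp
  have my : y ∈ ({a, b, c} : Finset (Fin m)) := by rw [he]; simp
  have mz : z ∈ ({a, b, c} : Finset (Fin m)) := by rw [he]; simp
  have h3' : ({x, y, z} : Finset (Fin m)).card = 3 := by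
    rw [← he, card_insert_of_notMem (by simp [hab, hac]), card_pair hbc]
  obtain ⟨nxy, nxz, nyz⟩ := inj_of_card h3'
  have g1 : r y x = (v, u) := by rw [hr x y nxy, h1]; rfl
  have g2 : r z x = (w, u) := by rw [hr x z nxz, h2]; rfl
  have g3 : r z y = (w, v) := by rw [hr y z nyz, h3]; rfl
  have p1 : ({u, w, v} : Finset (Fin n)) ∈ H := by rw [pair_comm w v]; exact hH
  have p2 : ({v, u, w} : Finset (Fin n)) ∈ H := by rw [insert_comm]; exact hH
  have p3 : ({v, w, u} : Finset (Fin n)) ∈ H := by rw [pair_comm w u]; exact p2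
  have p4 : ({w, u, v} : Finset (Fin n)) ∈ H := by rw [insert_comm]; exact p1
  have p5 : ({w, v, u} : Finset (Fin n)) ∈ H := by rw [pair_comm v u]; exact p4
  simp only [mem_insert, mem_singleton] at mx my mz
  rcases mx with rfl | rfl | rfl <;> rcases my with rfl | rfl | rfl <;>
    rcases mz with rfl | rfl | rfl <;>
    first
    | exact absurd rfl nxy
    | exact absurd rfl nxz
    | exact absurd rfl nyz
    | exact ⟨_, _, _, hH, by assumption, by assumption, by assumption⟩
    | exact ⟨_, _, _, p1, by assumption, by assumption, by assumption⟩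
    | exact ⟨_, _, _, p2, by assumption, by assumption, by assumption⟩
    | exact ⟨_, _, _, p3, by assumption, by assumption, by assumption⟩
    | exact ⟨_, _, _, p4, by assumption, by assumption, by assumption⟩
    | exact ⟨_, _, _, p5, by assumption, by assumption, by assumption⟩

theorem universal_ruleOf {n : ℕ} {H : Finset (Finset (Fin n))} (h3 : ∀ e ∈ H, e.card = 3)
    (hK : K43Free H) : Universal Prod.swap (ruleOf H) := by
  intro m r hr T hT
  by_contra hcon
  push Not at hcon
  obtain ⟨a, b, c, d, hab, hac, had, hbc, hbd, hcd, rfl⟩ := card_eq_four.1 hT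
  have key : ∀ {x y z : Fin m}, x ≠ y → x ≠ z → y ≠ z →
      x ∈ ({a, b, c, d} : Finset (Fin m)) → y ∈ ({a, b, c, d} : Finset (Fin m)) →
      z ∈ ({a, b, c, d} : Finset (Fin m)) → ruleOf H (r x y) (r x z) (r y z) := by
    intro x y z h1 h2 h4 m1 m2 m3
    refine labels hr h1 h2 h4 (hcon _ ?_ (card_eq_three.2 ⟨x, y, z, h1, h2, h4, rfl⟩))
    intro t ht
    simp only [mem_insert, mem_singleton] at ht
    rcases ht with rfl | rfl | rfl <;> assumption
  obtain ⟨u, v, w, q1, e1, e2, e3⟩ := key hab hac hbc (by simp) (by simp) (by simp)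
  obtain ⟨u', v', t, q2, e4, e5, e6⟩ := key hab had hbd (by simp) (by simp) (by simp)
  obtain ⟨u1, w1, t1, q3, e7, e8, e9⟩ := key hac had hcd (by simp) (by simp) (by simp)
  obtain ⟨v2, w2, t2, q4, e10, e11, e12⟩ := key hbc hbd hcd (by simp) (by simp) (by simp)
  rw [e1] at e4
  rw [e2] at e7
  rw [e5] at e8
  rw [e3] at e10
  rw [e6] at e11
  simp only [Prod.mk.injEq] at e4 e7 e8 e10 e11
  obtain ⟨rfl, rfl⟩ := e4
  obtain ⟨rfl, rfl⟩ := e7
  obtain ⟨-, rfl⟩ := e8
  obtain ⟨rfl, rfl⟩ := e10
  obtain ⟨-, rfl⟩ := e11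
  obtain ⟨n1, n2, n3⟩ := inj_of_card (h3 _ q1)
  obtain ⟨-, n4, n5⟩ := inj_of_card (h3 _ q2)
  obtain ⟨-, -, n6⟩ := inj_of_card (h3 _ q3)
  have h4 : ({u, v, w, t} : Finset (Fin n)).card = 4 := card_eq_four.2
    ⟨u, v, w, t, n1, n2, n4, n3, n5, n6, rfl⟩
  obtain ⟨s, hs, hs3, hn⟩ := hK _ h4
  have hcase : s = {u, v, w} ∨ s = {u, v, t} ∨ s = {u, w, t} ∨ s = {v, w, t} := by
    obtain ⟨x, hx⟩ : ∃ x, x ∈ ({u, v, w, t} : Finset (Fin n)) \ s := by
      rw [← Finset.Nonempty, ← card_pos, card_sdiff_of_subset hs]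
      omega
    rw [mem_sdiff] at hx
    have hsub : s ⊆ ({u, v, w, t} : Finset (Fin n)).erase x := by
      intro y hy
      rw [mem_erase]
      exact ⟨fun h => hx.2 (h ▸ hy), hs hy⟩
    have heq : s = ({u, v, w, t} : Finset (Fin n)).erase x := by
      refine eq_of_subset_of_card_le hsub ?_
      rw [card_erase_of_mem hx.1]
      omega
    have hx1 := hx.1
    simp only [mem_insert, mem_singleton] at hx1
    rw [heq]
    rcases hx1 with rfl | rfl | rfl | rfl
    · right; right; right
      ext y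
      simp only [mem_erase, mem_insert, mem_singleton]
      constructor
      · rintro ⟨h1, h2 | h2 | h2 | h2⟩
        · exact absurd h2 h1
        · exact Or.inl h2
        · exact Or.inr (Or.inl h2)
        · exact Or.inr (Or.inr h2)
      · rintro (rfl | rfl | rfl)
        · exact ⟨n1.symm, by simp⟩
        · exact ⟨n2.symm, by simp⟩
        · exact ⟨n4.symm, by simp⟩
    · right; right; left
      ext y
      simp only [mem_erase, mem_insert, mem_singleton]
      constructor
      · rintro ⟨h1, h2 | h2 | h2 | h2⟩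
        · exact Or.inl h2
        · exact absurd h2 h1
        · exact Or.inr (Or.inl h2)
        · exact Or.inr (Or.inr h2)
      · rintro (rfl | rfl | rfl)
        · exact ⟨n1, by simp⟩
        · exact ⟨n3.symm, by simp⟩
        · exact ⟨n5.symm, by simp⟩
    · right; left
      ext y
      simp only [mem_erase, mem_insert, mem_singleton]
      constructor
      · rintro ⟨h1, h2 | h2 | h2 | h2⟩
        · exact Or.inl h2
        · exact Or.inr (Or.inl h2)
        · exact absurd h2 h1
        · exact Or.inr (Or.inr h2)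
      · rintro (rfl | rfl | rfl)
        · exact ⟨n2, by simp⟩
        · exact ⟨n3, by simp⟩
        · exact ⟨n6.symm, by simp⟩
    · left
      ext y
      simp only [mem_erase, mem_insert, mem_singleton]
      constructor
      · rintro ⟨h1, h2 | h2 | h2 | h2⟩
        · exact Or.inl h2
        · exact Or.inr (Or.inl h2)
        · exact Or.inr (Or.inr h2)
        · exact absurd h2 h1
      · rintro (rfl | rfl | rfl)
        · exact ⟨n4, by simp⟩
        · exact ⟨n5, by simp⟩
        · exact ⟨n6, by simp⟩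
  rcases hcase with rfl | rfl | rfl | rfl
  · exact hn q1
  · exact hn q2
  · exact hn q3
  · exact hn q4

theorem encoded_ruleOf {n : ℕ} {H : Finset (Finset (Fin n))} (h3 : ∀ e ∈ H, e.card = 3) :
    encoded (ruleOf H) (fun x y => (x, y)) = H := by
  ext e
  constructor
  · intro h
    obtain ⟨-, x, y, z, rfl, u, v, w, hH, h1, h2, -⟩ := mem_encoded.1 h
    simp only [Prod.mk.injEq] at h1 h2
    rw [h1.1, h1.2, h2.2]
    exact hH
  · intro h
    obtain ⟨a, b, c, -, -, -, rfl⟩ := card_eq_three.1 (h3 e h)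
    exact mem_encoded.2 ⟨h3 _ h, a, b, c, rfl, a, b, c, h, rfl, rfl, rfl⟩

/-- **Turán's (3,4)-conjecture for universal rules with few relations.** Let all 3-graphs encoded
with the rule `F` be `K_4^3`-free, and suppose that there are at most four relations or that the
involution `σ` exchanges at most one pair of relations. Then every 3-graph on `n` vertices encoded
with `F` has at most `5/54 n^3` edges. For one such rule on four relations and every `n` some
structure gives exactly `C(n,3) - f(n) = (5/54 + o(1)) n^3` edges. Every `K_4^3`-free 3-graph is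
encoded with a universal rule on `n^2` relations, so that the first statement for all finite sets of
relations would give Turán's conjecture. -/
theorem result :
    (∀ (S : Type) (σ : S → S), (∀ s, σ (σ s) = s) →
      ((Finite S ∧ Nat.card S ≤ 4) ∨ ∃ d, ∀ s, σ s = s ∨ s = d ∨ s = σ d) →
      ∀ F : S → S → S → Prop, Universal σ F → ∀ (n : ℕ) (r : Fin n → Fin n → S),
        IsStructure σ r → 54 * (encoded F r).card ≤ 5 * n ^ 3) ∧
    (∃ (σ : Fin 4 → Fin 4) (F : Fin 4 → Fin 4 → Fin 4 → Prop), (∀ s, σ (σ s) = s) ∧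
      Universal σ F ∧ ∀ n : ℕ, ∃ r : Fin n → Fin n → Fin 4, IsStructure σ r ∧
        (encoded F r).card + turan n = n.choose 3) ∧
    (∀ (n : ℕ) (H : Finset (Finset (Fin n))), (∀ e ∈ H, e.card = 3) → K43Free H →
      ∃ F : Fin n × Fin n → Fin n × Fin n → Fin n × Fin n → Prop,
        Universal Prod.swap F ∧ IsStructure Prod.swap (fun x y : Fin n => (x, y)) ∧
          encoded F (fun x y => (x, y)) = H) := by
  refine ⟨fun S σ hσ h F hU n r hr => ?_, ⟨rev2, F0, by decide, universal_F0, lower⟩,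
    fun _ H h3 hK => ⟨ruleOf H, universal_ruleOf h3 hK, fun _ _ _ => rfl, encoded_ruleOf h3⟩⟩
  rcases h with ⟨hf, h4⟩ | ⟨d, h⟩
  · have := Fintype.ofFinite S
    exact upper (by rw [← Nat.card_eq_fintype_card]; exact h4) hσ hU hr
  · exact upper_sym hσ h hU hr

end Pool.Agent.Results.MP_466853_co.UniversalRules
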